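import Pool.Agent.Y232.Amalg.Defs

set_option autoImplicit false

namespace Pool.Agent.Y232.Amalg

open MvPolynomial

/-! ### Real-rooted cubics -/

/-- the discriminant of `s³ + a s² + b s + c` -/
def disc3 (a b c : ℝ) : ℝ :=
  a ^ 2 * b ^ 2 - 4 * b ^ 3 - 4 * a ^ 3 * c + 18 * a * b * c - 27 * c ^ 2

lemma disc3_nonneg (a b c : ℝ)
    (h : ∀ s : ℂ, s ^ 3 + a * s ^ 2 + b * s + c = 0 → s.im = 0) : 0 ≤ disc3 a b c := by
  -- a real root
  obtain ⟨s, hs⟩ : ∃ s : ℂ, s ^ 3 + a * s ^ 2 + b * s + c = 0 := by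
    have hdeg : (Polynomial.X ^ 3 + Polynomial.C (a : ℂ) * Polynomial.X ^ 2 +
        Polynomial.C (b : ℂ) * Polynomial.X + Polynomial.C (c : ℂ)).degree = 3 := by
      compute_degree!
    obtain ⟨s, hs⟩ := IsAlgClosed.exists_root _ (by rw [hdeg]; decide)
    refine ⟨s, ?_⟩
    simpa [Polynomial.IsRoot] using hs
  have him := h s hs
  obtain ⟨t, rfl⟩ : ∃ t : ℝ, s = (t : ℂ) := ⟨s.re, by apply Complex.ext <;> simp [him]⟩
  have ht : t ^ 3 + a * t ^ 2 + b * t + c = 0 := by exact_mod_cast hs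
  -- the quadratic factor
  set B := a + t with hB
  set C' := b + t * B with hC
  have hfac : ∀ u : ℂ, u ^ 3 + a * u ^ 2 + b * u + c =
      (u - t) * (u ^ 2 + B * u + C') := by
    intro u
    have h1 : (c : ℂ) = -((t : ℂ) ^ 3 + a * t ^ 2 + b * t) := by
      have : c = -(t ^ 3 + a * t ^ 2 + b * t) := by linarith
      exact_mod_cast this
    rw [h1, hC, hB]
    push_cast
    ring
  have hq : 0 ≤ B ^ 2 - 4 * C' := by
    by_contra hneg
    push Not at hneg
    set w := Real.sqrt (4 * C' - B ^ 2) with hw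
    have hw2 : w ^ 2 = 4 * C' - B ^ 2 := Real.sq_sqrt (by linarith)
    have hwpos : 0 < w := Real.sqrt_pos.2 (by linarith)
    have h2 := h ((-B + w * Complex.I) / 2) (by
      rw [hfac]
      have h3 : ((-B + w * Complex.I) / 2 : ℂ) ^ 2 + B * ((-B + w * Complex.I) / 2) + C' = 0 := by
        have h4 : (w : ℂ) ^ 2 = 4 * C' - B ^ 2 := by exact_mod_cast hw2
        have : ((-B + w * Complex.I) / 2 : ℂ) ^ 2 + B * ((-B + w * Complex.I) / 2) + C' =
          (w ^ 2 * Complex.I ^ 2 - B ^ 2 + 4 * C') / 4 := by ring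
        rw [this, Complex.I_sq, h4]
        ring
      rw [h3, mul_zero])
    simp at h2
    linarith
  have hc : c = -(t ^ 3 + a * t ^ 2 + b * t) := by linarith
  have : disc3 a b c = (B ^ 2 - 4 * C') * (t ^ 2 + B * t + C') ^ 2 := by
    rw [disc3, hc, hC, hB]
    ring
  rw [this]
  positivity

/-- a nonnegative polynomial function vanishing at `0` has derivative zero -/
lemma coeff_one_eq_zero (P : Polynomial ℝ) (h0 : P.eval 0 = 0) (h : ∀ e : ℝ, 0 ≤ P.eval e) :
    (Polynomial.derivative P).eval 0 = 0 := by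
  have h1 : IsLocalMin (fun e => P.eval e) 0 := by
    refine Filter.Eventually.of_forall fun e => ?_
    show P.eval 0 ≤ P.eval e
    rw [h0]
    exact h e
  exact h1.hasDerivAt_eq_zero (P.hasDerivAt 0)

/-- First order condition at a double root. -/
lemma node_condition (a a' a'' b' b'' c' c'' : ℝ) (ha : a ≠ -3)
    (h : ∀ e : ℝ, 0 ≤ disc3 (a + a' * e + a'' * e ^ 2) (-3 - 2 * a + b' * e + b'' * e ^ 2)
      (2 + a + c' * e + c'' * e ^ 2)) : a' + b' + c' = 0 := by
  set A : Polynomial ℝ := Polynomial.C a + Polynomial.C a' * Polynomial.X +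
    Polynomial.C a'' * Polynomial.X ^ 2 with hA
  set B : Polynomial ℝ := Polynomial.C (-3 - 2 * a) + Polynomial.C b' * Polynomial.X +
    Polynomial.C b'' * Polynomial.X ^ 2 with hB
  set D : Polynomial ℝ := Polynomial.C (2 + a) + Polynomial.C c' * Polynomial.X +
    Polynomial.C c'' * Polynomial.X ^ 2 with hD
  set P : Polynomial ℝ := A ^ 2 * B ^ 2 - 4 * B ^ 3 - 4 * A ^ 3 * D + 18 * A * B * D - 27 * D ^ 2
    with hP
  have hev : ∀ e, P.eval e = disc3 (a + a' * e + a'' * e ^ 2)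
      (-3 - 2 * a + b' * e + b'' * e ^ 2) (2 + a + c' * e + c'' * e ^ 2) := by
    intro e
    simp [hP, hA, hB, hD, disc3]
  have h0 : P.eval 0 = 0 := by
    rw [hev, disc3]
    ring
  have h1 := coeff_one_eq_zero P h0 (fun e => by rw [hev]; exact h e)
  have h2 : (Polynomial.derivative P).eval 0 = -4 * (a + 3) ^ 3 * (a' + b' + c') := by
    simp [hP, hA, hB, hD, Polynomial.derivative_pow]
    ring
  rw [h2] at h1
  have h3 : (a + 3) ^ 3 ≠ 0 := pow_ne_zero _ (fun h => ha (by linarith))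
  have h4 : -4 * (a + 3) ^ 3 ≠ 0 := mul_ne_zero (by norm_num) h3
  exact (mul_eq_zero.1 h1).resolve_left h4

end Pool.Agent.Y232.Amalg
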