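import Mathlib

/-!
# Real zero polynomials and the amalgamation question: definitions
-/

set_option autoImplicit false

namespace Pool.Agent.Y232.Amalg

open MvPolynomial

/-- `f` is a real zero polynomial: for every real point `a` and every complex number `l` with
`f(l a) = 0`, the number `l` is real. -/
def IsRealZero {σ : Type} (f : MvPolynomial σ ℝ) : Prop :=
  ∀ (a : σ → ℝ) (l : ℂ), aeval (fun i => l * (a i : ℂ)) f = 0 → l.im = 0

/-- The polynomial `p(x, 0)` in `x = (x_1, x_2)`, for a polynomial `p(x, y)` in `x` and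
`y = (y_1, …, y_k)`. -/
noncomputable def restrictX {k : ℕ} (p : MvPolynomial (Fin 2 ⊕ Fin k) ℝ) :
    MvPolynomial (Fin 2) ℝ :=
  aeval (Sum.elim X (fun _ => 0)) p

/-- The polynomial `r(x, y, 0)`, for a polynomial `r(x, y, z)` in `x = (x_1, x_2)`,
`y = (y_1, …, y_m)` and `z = (z_1, …, z_n)`. -/
noncomputable def restrictXY {m n : ℕ} (r : MvPolynomial (Fin 2 ⊕ (Fin m ⊕ Fin n)) ℝ) :
    MvPolynomial (Fin 2 ⊕ Fin m) ℝ :=
  aeval (Sum.elim (fun i => X (Sum.inl i)) (Sum.elim (fun j => X (Sum.inr j)) (fun _ => 0))) r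

/-- The polynomial `r(x, 0, z)`. -/
noncomputable def restrictXZ {m n : ℕ} (r : MvPolynomial (Fin 2 ⊕ (Fin m ⊕ Fin n)) ℝ) :
    MvPolynomial (Fin 2 ⊕ Fin n) ℝ :=
  aeval (Sum.elim (fun i => X (Sum.inl i)) (Sum.elim (fun _ => 0) (fun j => X (Sum.inr j)))) r

end Pool.Agent.Y232.Amalg
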