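import Pool.Agent.Y232.Amalg.Main

set_option autoImplicit false

namespace Pool.Agent.Y232.Amalg

open MvPolynomial

lemma pp_realZero {σ : Type} (a b y : σ) : IsRealZero (pp a b y) := by
  intro v l h
  apply im_eq_zero_of_det !![v a, v b, 2 * v y; v b, -v a, v y; 2 * v y, v y, 3 / 2 * v y]
  · ext i j
    fin_cases i <;> fin_cases j <;> rfl
  · rw [pp] at h
    simp only [map_add, map_sub, map_mul, map_pow, map_one, aeval_X, aeval_C,
      Complex.coe_algebraMap] at h
    push_cast at h
    rw [Matrix.det_fin_three]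
    simp
    linear_combination h

lemma qq_realZero {σ : Type} (a b z : σ) : IsRealZero (qq a b z) := by
  intro v l h
  apply im_eq_zero_of_det !![0, v a, v b; v a, 0, v z; v b, v z, 0]
  · ext i j
    fin_cases i <;> fin_cases j <;> rfl
  · rw [qq] at h
    simp only [map_add, map_sub, map_mul, map_pow, map_one, aeval_X, aeval_C,
      Complex.coe_algebraMap] at h
    push_cast at h
    rw [Matrix.det_fin_three]
    simp
    linear_combination h

/-- the polynomial `p(x, y)` -/
noncomputable def P {m : ℕ} (j : Fin m) : MvPolynomial (Fin 2 ⊕ Fin m) ℝ :=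
  pp (Sum.inl 0) (Sum.inl 1) (Sum.inr j)

/-- the polynomial `q(x, z)` -/
noncomputable def Q {n : ℕ} (k : Fin n) : MvPolynomial (Fin 2 ⊕ Fin n) ℝ :=
  qq (Sum.inl 0) (Sum.inl 1) (Sum.inr k)

lemma restrict_eq {m n : ℕ} (j : Fin m) (k : Fin n) : restrictX (P j) = restrictX (Q k) := by
  unfold restrictX P Q pp qq
  simp

theorem no_amalgam {m n : ℕ} (j : Fin m) (k : Fin n)
    (r : MvPolynomial (Fin 2 ⊕ (Fin m ⊕ Fin n)) ℝ) (hr : IsRealZero r) (hd : r.totalDegree ≤ 3)
    (h1 : restrictXY r = P j) (h2 : restrictXZ r = Q k) : False := by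
  classical
  -- restrict to the variables `x`, `y_j`, `z_k`
  set s : (Fin 2 ⊕ (Fin m ⊕ Fin n)) → MvPolynomial (Fin 4) ℝ :=
    Sum.elim ![X 0, X 1] (Sum.elim (fun i => if i = j then X 2 else 0)
      (fun i => if i = k then X 3 else 0)) with hs
  have hsd : ∀ i, (s i).totalDegree ≤ 1 := by
    rintro (i | i | i)
    · fin_cases i
      · exact dX _
      · exact dX _
    · simp only [hs, Sum.elim_inr, Sum.elim_inl]
      split_ifs
      · exact dX _
      · rw [totalDegree_zero]; exact Nat.zero_le _
    · simp only [hs, Sum.elim_inr]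
      split_ifs
      · exact dX _
      · rw [totalDegree_zero]; exact Nat.zero_le _
  have hdeg : (aeval s r).totalDegree ≤ 3 := by
    refine le_trans ?_ hd
    rw [aeval_def, eval₂_eq']
    refine (totalDegree_finsetSum _ _).trans (Finset.sup_le fun d hdm => ?_)
    refine (totalDegree_mul _ _).trans ?_
    rw [algebraMap_eq, totalDegree_C, zero_add]
    refine (totalDegree_finsetProd _ _).trans ?_
    refine le_trans ?_ (le_totalDegree hdm)
    rw [Finsupp.sum_fintype _ _ (by simp)]
    refine Finset.sum_le_sum fun i _ => ?_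
    refine (totalDegree_pow _ _).trans ?_
    calc d i * (s i).totalDegree ≤ d i * 1 := Nat.mul_le_mul_left _ (hsd i)
      _ = d i := mul_one _
  have hRZ : IsRealZero (aeval s r) := by
    intro a l h
    have h3 : ∀ f : MvPolynomial (Fin 2 ⊕ (Fin m ⊕ Fin n)) ℝ,
        aeval (fun i => l * ((aeval a (s i) : ℝ) : ℂ)) f =
        aeval (fun i => l * (a i : ℂ)) (aeval s f) := by
      intro f
      have : (aeval (fun i => l * ((aeval a (s i) : ℝ) : ℂ)) :
          MvPolynomial (Fin 2 ⊕ (Fin m ⊕ Fin n)) ℝ →ₐ[ℝ] ℂ) =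
          (aeval (fun i => l * (a i : ℂ))).comp (aeval s) := by
        apply MvPolynomial.algHom_ext
        intro i
        rw [AlgHom.comp_apply, aeval_X, aeval_X]
        rcases i with i | i | i
        · fin_cases i <;> simp [hs]
        · simp only [hs, Sum.elim_inr, Sum.elim_inl]
          split_ifs <;> simp
        · simp only [hs, Sum.elim_inr]
          split_ifs <;> simp
      exact congrArg (fun φ => φ f) this
    exact hr (fun i => aeval a (s i)) l (by rw [h3]; exact h)
  refine core (aeval s r) hRZ hdeg ?_ ?_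
  · -- `z = 0`
    have e : (kill 3).comp (aeval s) = (aeval (Sum.elim ![X 0, X 1]
        (fun i => if i = j then X 2 else 0)) :
        MvPolynomial (Fin 2 ⊕ Fin m) ℝ →ₐ[ℝ] MvPolynomial (Fin 4) ℝ).comp
        (aeval (Sum.elim (fun i => X (Sum.inl i))
          (Sum.elim (fun j => X (Sum.inr j)) (fun _ => 0)))) := by
      apply MvPolynomial.algHom_ext
      rintro (i | i | i)
      · fin_cases i <;> simp [hs, kill]
      · simp only [hs, AlgHom.comp_apply, aeval_X, Sum.elim_inr, Sum.elim_inl]
        split_ifs <;> simp [kill]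
      · simp only [hs, AlgHom.comp_apply, aeval_X, Sum.elim_inr]
        split_ifs <;> simp [kill]
    have e2 := congrArg (fun φ => φ r) e
    simp only [AlgHom.comp_apply] at e2
    rw [e2]
    unfold restrictXY at h1
    rw [h1]
    unfold P pp P4
    simp
  · have e : (kill 2).comp (aeval s) = (aeval (Sum.elim ![X 0, X 1]
        (fun i => if i = k then X 3 else 0)) :
        MvPolynomial (Fin 2 ⊕ Fin n) ℝ →ₐ[ℝ] MvPolynomial (Fin 4) ℝ).comp
        (aeval (Sum.elim (fun i => X (Sum.inl i))
          (Sum.elim (fun _ => 0) (fun j => X (Sum.inr j))))) := by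
      apply MvPolynomial.algHom_ext
      rintro (i | i | i)
      · fin_cases i <;> simp [hs, kill]
      · simp only [hs, AlgHom.comp_apply, aeval_X, Sum.elim_inr, Sum.elim_inl]
        split_ifs <;> simp [kill]
      · simp only [hs, AlgHom.comp_apply, aeval_X, Sum.elim_inr]
        split_ifs <;> simp [kill]
    have e2 := congrArg (fun φ => φ r) e
    simp only [AlgHom.comp_apply] at e2
    rw [e2]
    unfold restrictXZ at h2
    rw [h2]
    unfold Q qq Q4
    simp
    ring

end Pool.Agent.Y232.Amalg
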