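import Pool.Agent.Y232.Amalg.Core

set_option autoImplicit false

namespace Pool.Agent.Y232.Amalg

open MvPolynomial

/-! ### Division by variables -/

/-- set the variable `i` to zero -/
noncomputable def kill {σ : Type} [DecidableEq σ] (i : σ) :
    MvPolynomial σ ℝ →ₐ[ℝ] MvPolynomial σ ℝ :=
  aeval (fun j => if j = i then 0 else X j)

lemma X_dvd_of_kill {σ : Type} [DecidableEq σ] (i : σ) (g : MvPolynomial σ ℝ)
    (h : kill i g = 0) : X i ∣ g := by
  have h1 : ∀ f : MvPolynomial σ ℝ, f - kill i f ∈ Ideal.span {(X i : MvPolynomial σ ℝ)} := by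
    intro f
    rw [← Ideal.Quotient.mk_eq_mk_iff_sub_mem]
    have : (Ideal.Quotient.mkₐ ℝ (Ideal.span {(X i : MvPolynomial σ ℝ)})) =
        (Ideal.Quotient.mkₐ ℝ (Ideal.span {(X i : MvPolynomial σ ℝ)})).comp (kill i) := by
      apply MvPolynomial.algHom_ext
      intro j
      rw [AlgHom.comp_apply, kill, aeval_X]
      by_cases hj : j = i
      · subst hj
        rw [if_pos rfl, map_zero]
        exact Ideal.Quotient.eq_zero_iff_mem.2 (Ideal.mem_span_singleton_self _)
      · rw [if_neg hj]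
    exact congrArg (fun φ => φ f) this
  have h2 := h1 g
  rw [h, sub_zero] at h2
  exact Ideal.mem_span_singleton.1 h2

lemma affine_of_totalDegree {σ : Type} [Fintype σ] [DecidableEq σ] (h : MvPolynomial σ ℝ)
    (hd : h.totalDegree ≤ 1) : ∃ (c : ℝ) (l : σ → ℝ), h = C c + ∑ i, C (l i) * X i := by
  classical
  refine ⟨coeff 0 h, fun i => coeff (Finsupp.single i 1) h, ?_⟩
  ext m
  rw [coeff_add, coeff_C, coeff_sum]
  simp only [coeff_C_mul, coeff_X]
  by_cases h0 : m = 0
  · subst h0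
    rw [if_pos rfl, Finset.sum_eq_zero, add_zero]
    intro i _
    rw [if_neg, mul_zero]
    intro hc
    have := DFunLike.congr_fun hc i
    simp at this
  · rw [if_neg (Ne.symm h0), zero_add]
    by_cases hm : m ∈ h.support
    · have h1 : (m.sum fun _ e => e) ≤ 1 := (le_totalDegree hm).trans hd
      obtain ⟨i, hi⟩ : ∃ i, m i ≠ 0 := by
        by_contra hc
        push Not at hc
        exact h0 (Finsupp.ext hc)
      have h2 : m = Finsupp.single i 1 := by
        rw [Finsupp.sum_fintype _ _ (by simp)] at h1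
        have h3 : m i + ∑ j ∈ Finset.univ.erase i, m j = ∑ j, m j :=
          Finset.add_sum_erase _ _ (Finset.mem_univ i)
        have h4 : m i = 1 := by omega
        have h5 : ∑ j ∈ Finset.univ.erase i, m j = 0 := by omega
        ext j
        by_cases hj : j = i
        · subst hj
          rw [h4, Finsupp.single_eq_same]
        · rw [Finsupp.single_eq_of_ne hj]
          exact (Finset.sum_eq_zero_iff.1 h5) j (Finset.mem_erase.2 ⟨hj, Finset.mem_univ j⟩)
      subst h2
      rw [Finset.sum_eq_single i]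
      · rw [if_pos rfl, mul_one]
      · intro j _ hj
        rw [if_neg, mul_zero]
        intro hc
        exact hj (Finsupp.single_left_injective one_ne_zero hc)
      · intro hc
        exact absurd (Finset.mem_univ i) hc
    · rw [notMem_support_iff.1 hm]
      symm
      apply Finset.sum_eq_zero
      intro i _
      by_cases hi : Finsupp.single i 1 = m
      · rw [if_pos hi, hi, notMem_support_iff.1 hm, zero_mul]
      · rw [if_neg hi, mul_zero]

lemma exists_mixed (g : MvPolynomial (Fin 4) ℝ) (hd : g.totalDegree ≤ 3)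
    (h2 : kill 2 g = 0) (h3 : kill 3 g = 0) :
    ∃ (c : ℝ) (l : Fin 4 → ℝ), g = X 2 * X 3 * (C c + ∑ i, C (l i) * X i) := by
  obtain ⟨g1, rfl⟩ := X_dvd_of_kill 3 g h3
  have h4 : kill 2 g1 = 0 := by
    rw [map_mul, kill, aeval_X, if_neg (by decide)] at h2
    exact (mul_eq_zero.1 h2).resolve_left (X_ne_zero _)
  obtain ⟨h, rfl⟩ := X_dvd_of_kill 2 g1 h4
  by_cases h0 : h = 0
  · refine ⟨0, fun _ => 0, ?_⟩
    rw [h0]
    simp
  · have e1 : (X 3 * (X 2 * h) : MvPolynomial (Fin 4) ℝ).totalDegree = 1 + (1 + h.totalDegree) := by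
      rw [totalDegree_mul_of_isDomain (X_ne_zero _) (mul_ne_zero (X_ne_zero _) h0),
        totalDegree_mul_of_isDomain (X_ne_zero _) h0, totalDegree_X, totalDegree_X]
    rw [e1] at hd
    obtain ⟨c, l, hcl⟩ := affine_of_totalDegree h (by omega)
    exact ⟨c, l, by rw [← hcl]; ring⟩

/-! ### The two cubics in four variables -/

/-- `p` as a polynomial in the variables `x_1, x_2, y, z` -/
noncomputable def P4 : MvPolynomial (Fin 4) ℝ :=
  (1 + C (3 / 2) * X 2) * (1 - X 0 ^ 2 - X 1 ^ 2) - X 2 ^ 2 * (C 5 - C 3 * X 0 - C 4 * X 1)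

/-- `q - q(x, 0)` as a polynomial in the variables `x_1, x_2, y, z` -/
noncomputable def Q4 : MvPolynomial (Fin 4) ℝ :=
  - X 3 ^ 2 + C 2 * X 0 * X 1 * X 3

section degrees

variable {σ : Type}

lemma dX (i : σ) : (X i : MvPolynomial σ ℝ).totalDegree ≤ 1 := by
  rw [totalDegree_X]

lemma dC (c : ℝ) (k : ℕ) : (C c : MvPolynomial σ ℝ).totalDegree ≤ k := by
  rw [totalDegree_C]
  exact Nat.zero_le _

lemma d1 (k : ℕ) : (1 : MvPolynomial σ ℝ).totalDegree ≤ k := by
  rw [totalDegree_one]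
  exact Nat.zero_le _

lemma dadd {f g : MvPolynomial σ ℝ} {k : ℕ} (hf : f.totalDegree ≤ k) (hg : g.totalDegree ≤ k) :
    (f + g).totalDegree ≤ k := (totalDegree_add _ _).trans (max_le hf hg)

lemma dsub {f g : MvPolynomial σ ℝ} {k : ℕ} (hf : f.totalDegree ≤ k) (hg : g.totalDegree ≤ k) :
    (f - g).totalDegree ≤ k := (totalDegree_sub _ _).trans (max_le hf hg)

lemma dneg {f : MvPolynomial σ ℝ} {k : ℕ} (hf : f.totalDegree ≤ k) :
    (-f).totalDegree ≤ k := by rwa [totalDegree_neg]

lemma dmul {f g : MvPolynomial σ ℝ} {k l m : ℕ} (hf : f.totalDegree ≤ k)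
    (hg : g.totalDegree ≤ l) (h : k + l ≤ m) :
    (f * g).totalDegree ≤ m := (totalDegree_mul _ _).trans ((add_le_add hf hg).trans h)

lemma dsq (i : σ) (k : ℕ) (hk : 2 ≤ k) : (X i ^ 2 : MvPolynomial σ ℝ).totalDegree ≤ k :=
  (totalDegree_X_pow i 2).le.trans hk

/-- `p(x, y)` with arbitrary names of the variables -/
noncomputable def pp (a b y : σ) : MvPolynomial σ ℝ :=
  (1 + C (3 / 2) * X y) * (1 - X a ^ 2 - X b ^ 2) - X y ^ 2 * (C 5 - C 3 * X a - C 4 * X b)

/-- `q(x, z)` with arbitrary names of the variables -/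
noncomputable def qq (a b z : σ) : MvPolynomial σ ℝ :=
  1 - X a ^ 2 - X b ^ 2 - X z ^ 2 + C 2 * X a * X b * X z

lemma pp_degree (a b y : σ) : (pp a b y).totalDegree ≤ 3 := by
  unfold pp
  have h1 : (1 + C (3 / 2) * X y : MvPolynomial σ ℝ).totalDegree ≤ 1 :=
    dadd (d1 _) (dmul (dC _ 0) (dX _) (by norm_num))
  have h2 : (1 - X a ^ 2 - X b ^ 2 : MvPolynomial σ ℝ).totalDegree ≤ 2 :=
    dsub (dsub (d1 _) (dsq _ _ le_rfl)) (dsq _ _ le_rfl)
  have h3 : (C 5 - C 3 * X a - C 4 * X b : MvPolynomial σ ℝ).totalDegree ≤ 1 :=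
    dsub (dsub (dC _ _) (dmul (dC _ 0) (dX _) (by norm_num)))
      (dmul (dC _ 0) (dX _) (by norm_num))
  exact dsub (dmul h1 h2 (by norm_num)) (dmul (dsq _ 2 le_rfl) h3 (by norm_num))

lemma qq_degree (a b z : σ) : (qq a b z).totalDegree ≤ 3 := by
  unfold qq
  exact dadd (dsub (dsub (dsub (d1 _) (dsq _ _ (by norm_num))) (dsq _ _ (by norm_num)))
    (dsq _ _ (by norm_num)))
    (dmul (dmul (dmul (dC _ 0) (dX _) (le_refl (0 + 1))) (dX _) (le_refl (1 + 1))) (dX _)
      (by norm_num))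

end degrees

/-- The core: there is no real zero polynomial of degree at most three. -/
theorem core (r : MvPolynomial (Fin 4) ℝ) (hr : IsRealZero r) (hd : r.totalDegree ≤ 3)
    (h3 : kill 3 r = P4)
    (h2 : kill 2 r = (1 - X 0 ^ 2 - X 1 ^ 2) + Q4) : False := by
  have hP : (P4 : MvPolynomial (Fin 4) ℝ).totalDegree ≤ 3 := pp_degree 0 1 2
  have hQ : (Q4 : MvPolynomial (Fin 4) ℝ).totalDegree ≤ 3 := by
    unfold Q4
    exact dadd (dneg (dsq _ _ (by norm_num)))
      (dmul (dmul (dmul (dC _ 0) (dX _) (le_refl (0 + 1))) (dX _) (le_refl (1 + 1))) (dX _)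
        (by norm_num))
  obtain ⟨c, l, hcl⟩ := exists_mixed (r - (P4 + Q4)) (by
      refine (totalDegree_sub _ _).trans (max_le hd ((totalDegree_add _ _).trans (max_le hP hQ))))
    (by
      rw [map_sub, h2, map_add]
      simp [P4, Q4, kill])
    (by
      rw [map_sub, h3, map_add]
      simp [P4, Q4, kill])
  have hr4 : r = P4 + Q4 + X 2 * X 3 * (C c + ∑ i, C (l i) * X i) := by
    rw [← hcl]; ring
  -- the cubic on the line through the origin and `(x1, x2, y, z)`
  have key : ∀ x1 x2 y z : ℝ, 0 ≤ disc3 (3 / 2 * y)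
      (-(x1 ^ 2 + x2 ^ 2) - 5 * y ^ 2 - z ^ 2 + c * y * z)
      (-(3 / 2) * y * (x1 ^ 2 + x2 ^ 2) + y ^ 2 * (3 * x1 + 4 * x2) + 2 * x1 * x2 * z +
        y * z * (l 0 * x1 + l 1 * x2 + l 2 * y + l 3 * z)) := by
    intro x1 x2 y z
    apply disc3_nonneg
    intro s hs
    by_cases hs0 : s = 0
    · rw [hs0]; rfl
    have h1 := hr ![x1, x2, y, z] s⁻¹ (by
      rw [hr4]
      simp only [P4, Q4, map_add, map_sub, map_mul, map_pow, map_neg, map_one, aeval_X, aeval_C,
        Fin.sum_univ_four]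
      simp only [Matrix.cons_val_zero, Matrix.cons_val_one, Matrix.cons_val]
      simp only [Complex.coe_algebraMap]
      push_cast at hs ⊢
      have h3 : s ^ 3 ≠ 0 := pow_ne_zero _ hs0
      field_simp
      field_simp at hs
      linear_combination hs)
    rw [Complex.inv_im] at h1
    have h2 : Complex.normSq s ≠ 0 := fun h => hs0 (Complex.normSq_eq_zero.1 h)
    have h3 := (div_eq_zero_iff.1 h1).resolve_right h2
    linarith
  -- the six nodes
  have n1 := node_condition (3 / 2) 0 0 c (-1) (24 / 25 + 3 / 5 * l 0 + 4 / 5 * l 1 + l 2) (l 3)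
    (by norm_num) (fun e => by
      have := key (3 / 5) (4 / 5) 1 e
      convert this using 2 <;> ring)
  have n2 := node_condition (-3 / 5) 0 0 (-2 / 5 * c) (-1)
    (24 / 25 - 2 / 5 * (3 / 5 * l 0 + 4 / 5 * l 1 - 2 / 5 * l 2)) (-2 / 5 * l 3)
    (by norm_num) (fun e => by
      have := key (3 / 5) (4 / 5) (-2 / 5) e
      convert this using 2 <;> ring)
  have m1 := node_condition 0 (3 / 2) 0 c (-5) (-3 + l 0 + l 1 + l 3) (7 + l 2)
    (by norm_num) (fun e => by
      have := key 1 1 e 1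
      convert this using 2 <;> ring)
  have m2 := node_condition 0 (3 / 2) 0 c (-5) (-3 - l 0 - l 1 + l 3) (-7 + l 2)
    (by norm_num) (fun e => by
      have := key (-1) (-1) e 1
      convert this using 2 <;> ring)
  have m3 := node_condition 0 (3 / 2) 0 (-c) (-5) (-3 - l 0 + l 1 + l 3) (-1 - l 2)
    (by norm_num) (fun e => by
      have := key 1 (-1) e (-1)
      convert this using 2 <;> ring)
  have m4 := node_condition 0 (3 / 2) 0 (-c) (-5) (-3 + l 0 - l 1 + l 3) (1 - l 2)
    (by norm_num) (fun e => by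
      have := key (-1) 1 e (-1)
      convert this using 2 <;> ring)
  linarith

/-! ### Real zero polynomials from symmetric matrices -/

open Matrix ComplexOrder in
lemma im_eq_zero_of_det (A : Matrix (Fin 3) (Fin 3) ℝ) (hA : A.IsSymm) (l : ℂ)
    (h : (1 + l • A.map (fun x : ℝ => (x : ℂ))).det = 0) : l.im = 0 := by
  obtain ⟨w, hw0, hw⟩ := exists_mulVec_eq_zero_iff.2 h
  set B : Matrix (Fin 3) (Fin 3) ℂ := A.map (fun x : ℝ => (x : ℂ)) with hB
  have h1 : star w ⬝ᵥ w + l * (star w ⬝ᵥ (B *ᵥ w)) = 0 := by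
    have := congrArg (fun u => star w ⬝ᵥ u) hw
    simpa [add_mulVec, smul_mulVec, dotProduct_add, dotProduct_smul] using this
  have hBH : B.IsHermitian := by
    ext i j
    simp only [conjTranspose_apply, hB, map_apply]
    rw [← hA.apply i j]
    simp
  have hreal : ((star w ⬝ᵥ (B *ᵥ w)) : ℂ).im = 0 := by
    have := hBH.im_star_dotProduct_mulVec_self w
    simpa using this
  have hpos : 0 < (star w ⬝ᵥ w) := dotProduct_star_self_pos_iff.2 hw0
  have him : (star w ⬝ᵥ w : ℂ).im = 0 := (Complex.pos_iff.1 hpos).2.symm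
  have hre : 0 < (star w ⬝ᵥ w : ℂ).re := (Complex.pos_iff.1 hpos).1
  have e1 := congrArg Complex.re h1
  have e2 := congrArg Complex.im h1
  simp only [Complex.add_re, Complex.add_im, Complex.mul_re, Complex.mul_im, hreal, him,
    Complex.zero_re, Complex.zero_im, mul_zero, sub_zero, zero_add, add_zero] at e1 e2
  rcases mul_eq_zero.1 e2 with h5 | h5
  · exact h5
  · exfalso
    rw [h5, mul_zero, add_zero] at e1
    exact hre.ne' e1

end Pool.Agent.Y232.Amalg
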